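import Pool.Agent.L0h48.PT.Low

/-!
# Patching of Galois representations with `2 n + 1` number fields

Let `π` be an algebraic cuspidal automorphic representation of `GL_n` over `ℚ`, with the Hecke
polynomials `f_p` (the characteristic polynomials of the classes `a_{π_p}`), considered as polynomials
over `ℚ̄_ℓ` by means of a fixed isomorphism `ℚ̄_ℓ ≅ ℂ`. In practice Galois representations are first
constructed for the base changes of `π` to number fields `E` with good properties, and then
patched to a representation of the Galois group of `ℚ`. In the patching lemmas in the literature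
(Blasius-Rogawski, Harris-Taylor, Sorensen) there have to be **infinitely many** fields `E`, all of them
solvable extensions, which are S-general for every finite set S of places.

We prove that **`2 n + 1` number fields are enough**; they do not have to be solvable or Galois
extensions of `ℚ`, only their Galois closures have to be independent (jointly linearly disjoint).
At the places `w` of `E` the representation `ρ_E` has to correspond to the base change of `π` only if
`w` is unramified and of degree one over the prime number `p` (so that the Hecke polynomial of the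
base change at `w` is `f_p`), and if `p` is not in a set of density zero, depending on `E`. The
representation `R` of the Galois group of `ℚ` is unique; its restriction to the Galois group of
`E` is `ρ_E`, and it corresponds to `π_p` for all `p` which have an unramified place `w` of
degree one in one of the fields, if `p` is not in the exceptional set for this field. There can be
any number of further fields `E_i` (each one independent of the `2 n + 1` given ones, but not
necessarily of the other ones): the same `R` restricts to `ρ_{E_i}` for them, and it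
corresponds to `π_p` for all `p` which have a place of degree one in one of them.

So the prediction for `π` is true at all primes which have a place of degree one in one of the `2 n + 1`
fields, if and only if the base changes of `π` to these fields have Galois representations.

The number of fields has to grow linearly with `n`: for `n ≥ 2` there are `n + 1` independent
quadratic fields, polynomials `f_p` and `n`-dimensional Artin representations of the Galois groups
of the fields which correspond to `f_p` at all places of degree one above `p`, for almost all `p`,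
but which are not the restrictions of a representation of the Galois group of `ℚ`.

Proof. Let `N_i` be the Galois groups of the Galois closures, `v_i` the restriction of `ρ_i` to `N_i`.
By Chebotarev's theorem the traces of `ρ_i` and `ρ_j` agree on the intersections, and that of `v_i`
is invariant under the Galois group of `ℚ`. Two of the representations `v_i`, `v_j` can be glued
(`N_i N_j` is the whole group) if the commutant of `v_i` does not grow under restriction to
`N_i ∩ N_j`. The commutants `C(J)` of the restrictions of `v_0` to the intersections of the `N_j`,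
`j ∈ J`, satisfy `C(J) ∩ C(J') = C(J ∩ J')`, and a strictly increasing chain of them has at most
`2 n - 2` steps, because for two commutants `C < C'` either `C'` contains more orthogonal idempotents, or
there are longer chains of `C`-stable subspaces. So `C(I) = C(∅)` for a set `I` which is so large that the
glued representation can be identified with `ρ_i` for all `i`. For the lower bound take the virtual
representation `∑ χ_j - 1`, where the `χ_j` are the characters of the `n + 1` quadratic fields.
-/

set_option autoImplicit false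

namespace Pool.Agent.Results.MP_ef641d_nt.FinitePatching

open NumberField Filter Polynomial Matrix

/-! ### Number fields and their Galois groups -/

/-- The absolute Galois group of the field `K`, with the Krull topology. -/
abbrev AbsGal (K : Type) [Field K] : Type := Gal(AlgebraicClosure K/K)

/-- The extensions of the field `K` in its algebraic closure. The absolute Galois group of `E` is
the subgroup `E.fixingSubgroup` of the absolute Galois group of `K`. -/
abbrev SubFld (K : Type) [Field K] : Type := IntermediateField K (AlgebraicClosure K)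

section
variable {K : Type} [Field K]

/-- `E` is a finite extension of `K`. -/
def IsFinite (E : SubFld K) : Prop := FiniteDimensional K E

/-- `E` is a Galois extension of `K`. -/
def IsGaloisExt (E : SubFld K) : Prop := IsGalois K E

/-- The degree of `E` over `K`. -/
noncomputable def degree (E : SubFld K) : ℕ := Module.finrank K E

end

/-- The field of algebraic numbers. -/
abbrev QBar : Type := AlgebraicClosure ℚ

/-- The ring of algebraic integers. -/
abbrev ZBar : Type := 𝓞 (AlgebraicClosure ℚ)

/-- The absolute Galois group of `ℚ`. -/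
abbrev GalQ : Type := AbsGal ℚ

/-- The fields `M i`, `i ∈ S`, Galois over `ℚ`, are jointly linearly disjoint: for all automorphisms
`c i` of the fields there is an automorphism `g` which agrees with `c i` on `M i` for all `i ∈ S`. -/
def Independent {ι : Type} (M : ι → SubFld ℚ) (S : Set ι) : Prop :=
  ∀ c : ι → GalQ, ∃ g : GalQ, ∀ i ∈ S, ∀ x ∈ M i, g x = c i x

/-- `g` belongs to the inertia group at the prime ideal `I` of the ring of algebraic integers. -/
def InInertia (I : Ideal ZBar) (g : GalQ) : Prop := ∀ x : ZBar, g • x - x ∈ I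

/-- `g` is an arithmetic Frobenius element at the prime ideal `I` above the prime number `p`. Its
inverse is a geometric Frobenius element. -/
def IsFrobenius (p : ℕ) (I : Ideal ZBar) (g : GalQ) : Prop := ∀ x : ZBar, g • x - x ^ p ∈ I

/-- The place `w` of `E` below the prime ideal `I` (which lies above `p`) is unramified and of degree
one over `p`, that is, the completion of `E` at `w` is `ℚ_p`: the inertia group at `I` and a
Frobenius element at `I` are contained in the Galois group of `E`. -/
structure DegreeOne (E : SubFld ℚ) (p : ℕ) (I : Ideal ZBar) : Prop where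
  inertia : ∀ g, InInertia I g → g ∈ E.fixingSubgroup
  frobenius : ∃ g ∈ E.fixingSubgroup, IsFrobenius p I g

/-! ### Representations -/

section
variable {Γ : Type} [Group Γ] {k : Type} [Field k] {n : ℕ}

/-- The matrix of `g`. -/
noncomputable def mat (ρ : Γ →* GL (Fin n) k) (g : Γ) : Matrix (Fin n) (Fin n) k :=
  (ρ g : GL (Fin n) k)

/-- `U` is a subrepresentation of `ρ`. -/
def Stable (ρ : Γ →* GL (Fin n) k) (U : Submodule k (Fin n → k)) : Prop :=
  ∀ g, ∀ x ∈ U, mat ρ g *ᵥ x ∈ U

/-- `ρ` is semisimple: every subrepresentation has a complement. -/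
def Semisimple (ρ : Γ →* GL (Fin n) k) : Prop :=
  ∀ U, Stable ρ U → ∃ U', Stable ρ U' ∧ IsCompl U U'

/-- `ρ` and `ρ'` are isomorphic. -/
def Isomorphic (ρ ρ' : Γ →* GL (Fin n) k) : Prop :=
  ∃ P : GL (Fin n) k, ∀ g, ρ' g = P * ρ g * P⁻¹

/-- The restriction of `R` to the Galois group of `E`. -/
noncomputable def restrict (R : GalQ →* GL (Fin n) k) (E : SubFld ℚ) : E.fixingSubgroup →* GL (Fin n) k :=
  R.comp E.fixingSubgroup.subtype

/-- `ρ` is unramified at the prime number `p`, and the geometric Frobenius elements at `p` have the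
characteristic polynomial `h`. -/
structure CorrespondsAt (ρ : GalQ →* GL (Fin n) k) (p : ℕ) (h : k[X]) : Prop where
  unramified : ∀ I : Ideal ZBar, I.IsPrime → (p : ZBar) ∈ I → ∀ g, InInertia I g → ρ g = 1
  frobenius : ∀ I : Ideal ZBar, I.IsPrime → (p : ZBar) ∈ I → ∀ g, IsFrobenius p I g →
    (mat ρ g⁻¹).charpoly = h

/-- The representation `ρ` of the Galois group of `E` is unramified at the places of `E` above `p`
which are unramified and of degree one over `p`, and the geometric Frobenius elements at
these places have the characteristic polynomial `h`. -/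
structure CorrespondsOver (E : SubFld ℚ) (ρ : E.fixingSubgroup →* GL (Fin n) k) (p : ℕ)
    (h : k[X]) : Prop where
  unramified : ∀ I : Ideal ZBar, I.IsPrime → (p : ZBar) ∈ I → DegreeOne E p I →
    ∀ g : E.fixingSubgroup, InInertia I g → ρ g = 1
  frobenius : ∀ I : Ideal ZBar, I.IsPrime → (p : ZBar) ∈ I → DegreeOne E p I →
    ∀ g : E.fixingSubgroup, IsFrobenius p I g → (mat ρ g⁻¹).charpoly = h

/-- The set `X` of prime numbers has natural density zero. -/
def DensityZero (X : Set ℕ) : Prop :=
  ∀ δ : ℝ, 0 < δ → ∀ᶠ x : ℕ in atTop,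
    ((({p | p.Prime ∧ p ∈ X} ∩ Set.Iic x : Set ℕ).ncard : ℕ) : ℝ) ≤ δ * Nat.primeCounting x

/-- `ρ` is a continuous semisimple representation of the Galois group of `E` which corresponds to the
polynomials `f p` at the places of degree one above the prime numbers `p` outside of the set `X` of
density zero. -/
structure Attached [TopologicalSpace k] (X : Set ℕ) (E : SubFld ℚ)
    (ρ : E.fixingSubgroup →* GL (Fin n) k) (f : ℕ → k[X]) : Prop where
  density : DensityZero X
  continuous : Continuous ρ
  semisimple : Semisimple ρ
  places : ∀ p, p.Prime → p ∉ X → CorrespondsOver E ρ p (f p)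

end

/-! ### The theorems -/

/-- **Patching with `2 n + 1` number fields.** The fields `E i`, `i ∈ F`, are the `2 n + 1` fields, the
other `E i` are additional fields. The fields `M i` are Galois extensions of `ℚ` containing `E i`, for
instance the Galois closures. -/
def Patching : Prop :=
  ∀ (ℓ : ℕ) [Fact ℓ.Prime] (n : ℕ), 1 ≤ n → ∀ (f : ℕ → (PadicAlgCl ℓ)[X]) (ι : Type)
    (E M : ι → SubFld ℚ), (∀ i, IsFinite (M i) ∧ IsGaloisExt (M i) ∧ E i ≤ M i) →
    ∀ F : Finset ι, 2 * n + 1 ≤ F.card → (∀ l, Independent M (insert l (F : Set ι))) →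
    ∀ (X : ι → Set ℕ) (ρ : ∀ i, (E i).fixingSubgroup →* GL (Fin n) (PadicAlgCl ℓ)),
      (∀ i, Attached (X i) (E i) (ρ i) f) →
    ∃ R : GalQ →* GL (Fin n) (PadicAlgCl ℓ), Continuous R ∧ Semisimple R ∧
      (∀ i, Isomorphic (ρ i) (restrict R (E i))) ∧
      (∀ p, p.Prime → (∃ i, p ∉ X i ∧ ∃ I : Ideal ZBar, I.IsPrime ∧ (p : ZBar) ∈ I ∧
        DegreeOne (E i) p I) → CorrespondsAt R p (f p)) ∧
      ∀ R' : GalQ →* GL (Fin n) (PadicAlgCl ℓ), Continuous R' → Semisimple R' →
        ∀ Y : Set ℕ, DensityZero Y →
          (∀ p, p.Prime → p ∉ Y → (∃ i ∈ F, ∃ I : Ideal ZBar, I.IsPrime ∧ (p : ZBar) ∈ I ∧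
            DegreeOne (E i) p I) → CorrespondsAt R' p (f p)) → Isomorphic R R'

/-- **`n + 1` quadratic fields are not enough**, if `n ≥ 2`. -/
def NotEnough : Prop :=
  ∀ (ℓ : ℕ) [Fact ℓ.Prime] (n : ℕ), 2 ≤ n → ∃ E : Fin (n + 1) → SubFld ℚ,
    (∀ i, IsFinite (E i) ∧ IsGaloisExt (E i) ∧ degree (E i) = 2) ∧ Independent E Set.univ ∧
    ∃ (f : ℕ → (PadicAlgCl ℓ)[X]) (X : Set ℕ)
      (ρ : ∀ i, (E i).fixingSubgroup →* GL (Fin n) (PadicAlgCl ℓ)),
      X.Finite ∧ (∀ i, Attached X (E i) (ρ i) f) ∧
      ¬ ∃ R : GalQ →* GL (Fin n) (PadicAlgCl ℓ), ∀ i, Isomorphic (ρ i) (restrict R (E i))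

/-! ### The proof -/

open Pool.Agent Pool.Agent.L0h48.PT

theorem ncard_eq (X : Set ℕ) (x : ℕ) :
    (({p | p.Prime ∧ p ∈ X} ∩ Set.Iic x : Set ℕ).ncard : ℕ) = R401.Dens.cnt X x := by
  unfold R401.Dens.cnt
  have h1 : ({p | p.Prime ∧ p ∈ X} ∩ Set.Iic x : Set ℕ) = {p | p ≤ x ∧ p.Prime ∧ p ∈ X} := by
    ext p
    simp only [Set.mem_inter_iff, Set.mem_ofPred_eq, Set.mem_Iic]
    tauto
  rw [h1]
  rfl

theorem dz {X : Set ℕ} (h : DensityZero X) : Dz X := by
  intro δ hδ
  filter_upwards [h δ hδ] with x hx
  rwa [ncard_eq] at hx

theorem of_dz {X : Set ℕ} (h : Dz X) : DensityZero X := by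
  intro δ hδ
  filter_upwards [h δ hδ] with x hx
  rwa [ncard_eq]

theorem mem_of {E : SubFld ℚ} {c g : GalQ} (h : ∀ x ∈ E, g x = c x) :
    c⁻¹ * g ∈ E.fixingSubgroup := by
  rw [IntermediateField.mem_fixingSubgroup_iff]
  intro x hx
  show c⁻¹ (g x) = x
  rw [h x hx]
  exact c.symm_apply_apply x

theorem of_mem {E : SubFld ℚ} {c g : GalQ} (h : c⁻¹ * g ∈ E.fixingSubgroup) :
    ∀ x ∈ E, g x = c x := by
  rw [IntermediateField.mem_fixingSubgroup_iff] at h
  intro x hx
  have h1 : c⁻¹ (g x) = x := h x hx
  have h2 : c (c⁻¹ (g x)) = g x := c.apply_symm_apply (g x)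
  rw [h1] at h2
  exact h2.symm

theorem corrOver {k : Type} [Field k] {n : ℕ} {E : SubFld ℚ}
    {ρ : E.fixingSubgroup →* GL (Fin n) k} {p : ℕ} {h : k[X]} (H : CorrespondsOver E ρ p h) :
    CorrOver ρ p h :=
  ⟨fun I h1 h2 h3 => H.unramified I h1 h2 ⟨h3.inert, h3.frob⟩,
    fun I h1 h2 h3 => H.frobenius I h1 h2 ⟨h3.inert, h3.frob⟩⟩

theorem of_corrOver {k : Type} [Field k] {n : ℕ} {E : SubFld ℚ}
    {ρ : E.fixingSubgroup →* GL (Fin n) k} {p : ℕ} {h : k[X]} (H : CorrOver ρ p h) :
    CorrespondsOver E ρ p h :=
  ⟨fun I h1 h2 h3 => H.unr I h1 h2 ⟨h3.inertia, h3.frobenius⟩,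
    fun I h1 h2 h3 => H.frob I h1 h2 ⟨h3.inertia, h3.frobenius⟩⟩

theorem patching : Patching := by
  intro ℓ _ n hn f ι E M hM F hF hI X ρ h
  have hle : ∀ i, (M i).fixingSubgroup ≤ (E i).fixingSubgroup :=
    fun i => IntermediateField.fixingSubgroup_le (hM i).2.2
  obtain ⟨R, h1, h2, h3, h4, h5⟩ := galois_patch hn f (fun i => (E i).fixingSubgroup)
    (fun i => (M i).fixingSubgroup) (fun i => normal_ext (hM i).2.1)
    (fun i => open_ext (hM i).1) hle F hF (fun l c => by
      obtain ⟨g, hg⟩ := hI l c
      refine ⟨g, fun i hi => mem_of (hg i ?_)⟩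
      rw [Set.mem_insert_iff, Finset.mem_coe]
      exact hi.symm) X (fun i => dz (h i).density) ρ (fun i => (h i).continuous)
    (fun i => (h i).semisimple) (fun i p hp hpX => corrOver ((h i).places p hp hpX))
  refine ⟨R, h1, h2, h3, ?_, ?_⟩
  · rintro p hp ⟨i, hpX, I, hIp, hpI, hd⟩
    have h6 := h4 p hp ⟨i, hpX, I, hIp, hpI, hd.inertia, hd.frobenius⟩
    exact ⟨h6.unr, h6.frob⟩
  · intro R' hc hs Y hY hR'
    refine h5 R' hc hs Y (dz hY) ?_
    rintro p hp hpY ⟨i, hi, I, hIp, hpI, hd⟩
    have h6 := hR' p hp hpY ⟨i, hi, I, hIp, hpI, hd.inert, hd.frob⟩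
    exact ⟨h6.unramified, h6.frobenius⟩

theorem notEnough : NotEnough := by
  intro ℓ _ n hn
  obtain ⟨E, h1, h2, h3, h4, f, X, ρ, h5, h6, h7, h8, h9⟩ := lower (k := PadicAlgCl ℓ) hn
  refine ⟨E, fun i => ⟨h1 i, h2 i, h3 i⟩, fun c => ?_, f, X, ρ, h5, fun i =>
    ⟨?_, h6 i, h7 i, fun p hp hpX => of_corrOver (h8 i p hp hpX)⟩, h9⟩
  · obtain ⟨g, hg⟩ := h4 c
    exact ⟨g, fun i _ => of_mem (hg i)⟩
  · exact of_dz (Dz.of_finite h5)

/-- **Theorem.** `2 n + 1` number fields are enough for patching; `n + 1` quadratic fields are not
enough, if `n ≥ 2`. -/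
theorem result : Patching ∧ NotEnough := ⟨patching, notEnough⟩

end Pool.Agent.Results.MP_ef641d_nt.FinitePatching
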