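import Pool.Agent.L0h46.DT.Fin
import Pool.Agent.R401.Avg

/-!
# One residual representation of large characteristic suffices (Artin type)

Let `π` be an algebraic cuspidal automorphic representation of `GL_n` over `ℚ` of Artin type: its
Hecke polynomials `f_p` (the characteristic polynomials of the classes `a_{π_p}` of Clozel) have
coefficients in the ring of integers of a number field `K` of degree `d`, and `π` and its conjugates
are unitary. Then the traces `a_p` satisfy `∑_{p ≤ x} |σ(a_p)| ^ 2 ≤ C π(x)` for large `x` and all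
`σ : K → ℂ`, with any `C > 1` (Rankin and Selberg). For instance `n = 2`, and `π` is given by a Maass
form of Laplace eigenvalue `1/4` with integral Hecke eigenvalues. For `K = ℚ` there are no conjugates.

Deligne and Serre (for `n = 2`) construct the Artin representation of `π` from representations
modulo `λ` attached to `π` for infinitely many primes `λ` of `K`. We show that **one** prime `λ` is
enough, if its residue characteristic is larger than a constant `ℓ₀` which depends only on `n`, `d`,
`C` and a number `δ < 1 / (8 n ^ 2)`, but not on `K`, on `π` and on its level. Moreover the residual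
representation has to correspond to `π` only at the primes outside a set `X_λ` of upper density at
most `δ`, and may be ramified at infinitely many primes.

More precisely let `Λ` be any nonempty set of primes `λ` of `K` of residue characteristic larger than
`ℓ₀`, with such a residual representation for each `λ ∈ Λ`. Then there is **one** Artin
representation `R`, of order at most `A(n, d, C)`, with Hecke polynomials `F_p` such that, for all `p`
outside some `X_λ`:

* `R` is unramified at `p`, the class of the geometric Frobenius elements is given by `F_p`, and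
  `F_p` is congruent to `f_p` modulo all `λ ∈ Λ` with `p ∉ X_λ`;
* `F_p = f_p` if `π` and its conjugates are tempered at `p`;
* `F_p = f_p` if the conjugates of the coefficients of `f_p` are at most `B` with
  `(B + 2 ^ n) ^ d < M = ∏_{λ ∈ s} N(λ)` for a finite subset `s` of `Λ`. By the bounds of Jacquet and
  Shalika this holds for all `p ≤ c M ^ (2 / (n d))`, and if `Λ` is infinite for all `p` (if the
  sets `X_λ` are finite and `X_λ \ {ℓ}` does not depend on `λ`), which is the result of Deligne and
  Serre in all dimensions;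
* the upper density of the `p` for which the traces are different is at most `4 C M ^ (-2 / d)`.

So the prediction Q1 for `π`, for **all** primes `ℓ'` and all isomorphisms, at all the primes at
which `π` is tempered (and at all primes outside of a set of density at most `4 C N(λ) ^ (-2 / d)`
for the traces), is a consequence of the existence of one residual representation.

Proof. Burnside's counting argument and the trace form bound the order of the residual image in terms
of `n`, `d` and `C`. So it lifts to characteristic zero, and the traces of the lift agree with the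
`a_p` at most primes. A strong multiplicity one theorem for Artin representations (traces which agree
outside a set of upper density less than `1 / (4 n ^ 2)` are equal) shows that the characteristic
polynomials of the lift have coefficients in `K` and that it does not depend on `λ`.
-/

set_option autoImplicit false

namespace Pool.Agent.Results.MP_ef641d_nt.OneResidualRepresentation

open NumberField Filter Polynomial Matrix

/-! ### Galois representations -/

/-- The absolute Galois group of the field `K`, with the Krull topology. -/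
abbrev AbsGal (K : Type) [Field K] : Type := Gal(AlgebraicClosure K/K)

/-- The field of algebraic numbers. -/
abbrev QBar : Type := AlgebraicClosure ℚ

/-- The ring of algebraic integers. -/
abbrev ZBar : Type := 𝓞 (AlgebraicClosure ℚ)

/-- The absolute Galois group of `ℚ`. -/
abbrev GalQ : Type := AbsGal ℚ

/-- `g` belongs to the inertia group at the prime ideal `Q` of the ring of algebraic integers. -/
def InInertia (Q : Ideal ZBar) (g : GalQ) : Prop := ∀ x : ZBar, g • x - x ∈ Q

/-- `g` is an arithmetic Frobenius element at the prime ideal `Q` above the prime number `p`. Its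
inverse is a geometric Frobenius element. -/
def IsFrobenius (p : ℕ) (Q : Ideal ZBar) (g : GalQ) : Prop := ∀ x : ZBar, g • x - x ^ p ∈ Q

section
variable {k : Type} [Field k] {n : ℕ}

/-- The matrix of `g`. -/
noncomputable def mat (ρ : GalQ →* GL (Fin n) k) (g : GalQ) : Matrix (Fin n) (Fin n) k := (ρ g : GL (Fin n) k)

/-- `U` is a subrepresentation of `ρ`. -/
def Stable (ρ : GalQ →* GL (Fin n) k) (U : Submodule k (Fin n → k)) : Prop :=
  ∀ g, ∀ x ∈ U, mat ρ g *ᵥ x ∈ U

/-- `ρ` is semisimple. -/
def Semisimple (ρ : GalQ →* GL (Fin n) k) : Prop :=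
  ∀ U, Stable ρ U → ∃ U', Stable ρ U' ∧ IsCompl U U'

/-- `ρ` is unramified at the prime number `p`, and the geometric Frobenius elements at `p` have the
characteristic polynomial `h`. -/
structure CorrespondsAt (ρ : GalQ →* GL (Fin n) k) (p : ℕ) (h : k[X]) : Prop where
  unramified : ∀ Q : Ideal ZBar, Q.IsPrime → (p : ZBar) ∈ Q → ∀ g, InInertia Q g → ρ g = 1
  frobenius : ∀ Q : Ideal ZBar, Q.IsPrime → (p : ZBar) ∈ Q → ∀ g, IsFrobenius p Q g →
    (mat ρ g⁻¹).charpoly = h

end

/-! ### Sets of primes and Hecke polynomials -/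

/-- The prime numbers up to `x`. -/
def primesUpTo (x : ℕ) : Finset ℕ := (Finset.range (x + 1)).filter Nat.Prime

/-- The set `X` of prime numbers has upper density at most `δ`: it contains at most `δ π(x)` primes
`p ≤ x` if `x` is large. -/
def DensityLE (X : Set ℕ) (δ : ℝ) : Prop :=
  ∀ᶠ x : ℕ in atTop, ((({p | p.Prime ∧ p ∈ X} ∩ Set.Iic x : Set ℕ).ncard : ℕ) : ℝ) ≤
    δ * Nat.primeCounting x

section
variable {K : Type} [Field K] [NumberField K]

/-- The trace `a_p` of the Hecke polynomial `h = X ^ n - a_p X ^ (n - 1) + ...`. -/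
noncomputable def trace (n : ℕ) (h : (𝓞 K)[X]) : 𝓞 K := -h.coeff (n - 1)

/-- For all embeddings `σ` of `K` the mean of `|σ(a_p)| ^ 2` over the `p ≤ x` is at most `C`, for
large `x`. -/
def MeanSquare (n : ℕ) (f : ℕ → (𝓞 K)[X]) (C : ℝ) : Prop :=
  ∀ σ : K →+* ℂ, ∀ᶠ x : ℕ in atTop,
    ∑ p ∈ primesUpTo x, ‖σ (trace n (f p))‖ ^ 2 ≤ C * Nat.primeCounting x

/-- There is a residual representation of dimension `n` modulo `I` (over a field which contains
`𝓞 K / I`) which corresponds to the Hecke polynomials `f p` at all prime numbers `p` outside `X`. -/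
def HasResidual (n : ℕ) (f : ℕ → (𝓞 K)[X]) (I : Ideal (𝓞 K)) (X : Set ℕ) : Prop :=
  ∃ (k : Type) (_ : Field k) (φ : 𝓞 K →+* k) (ρ : GalQ →* GL (Fin n) k), RingHom.ker φ = I ∧
    IsOpen (ρ.ker : Set GalQ) ∧ Semisimple ρ ∧
      ∀ p, p.Prime → p ∉ X → CorrespondsAt ρ p ((f p).map φ)

/-- The polynomial `h` with coefficients in `K`, by means of the homomorphism `j`. -/
noncomputable def via {L : Type} [Field L] (j : K →+* L) (h : (𝓞 K)[X]) : L[X] :=
  h.map (j.comp (algebraMap (𝓞 K) K))

/-- The Hecke polynomial `h` is tempered, in all embeddings of `K`: it is monic of degree `n` and its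
roots (the Satake parameters) have absolute value one. -/
def Tempered (n : ℕ) (h : (𝓞 K)[X]) : Prop :=
  h.Monic ∧ h.natDegree = n ∧ ∀ (σ : K →+* ℂ) (z : ℂ), (via σ h).IsRoot z → ‖z‖ = 1

/-- The polynomials `F p` are the Hecke polynomials of an Artin representation of order at most
`A` of the absolute Galois group of `ℚ` at the primes `p` in the set `P`, and also of a continuous
semisimple representation over `ℚ̄_ℓ`, for all primes `ℓ` and all embeddings of `K` in `ℚ̄_ℓ`. -/
structure IsGalois (n : ℕ) (F : ℕ → (𝓞 K)[X]) (A : ℕ) (P : Set ℕ) : Prop where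
  artin : ∀ e : K →+* QBar, ∃ R : GalQ →* GL (Fin n) QBar, IsOpen (R.ker : Set GalQ) ∧
    Nat.card R.range ≤ A ∧ ∀ p ∈ P, p.Prime → CorrespondsAt R p (via e (F p))
  ladic : ∀ (ℓ : ℕ) [Fact ℓ.Prime] (j : K →+* PadicAlgCl ℓ),
    ∃ ρ : GalQ →* GL (Fin n) (PadicAlgCl ℓ), Continuous ρ ∧ Semisimple ρ ∧
      ∀ p ∈ P, p.Prime → CorrespondsAt ρ p (via j (F p))

end

/-! ### The proof -/

open Pool.Agent.L0h46.DS Pool.Agent.R401.Img Pool.Agent.R401.DS Pool.Agent.R401.Dens

theorem att_of {k : Type} [Field k] {n : ℕ} {ρ : GalQ →* GL (Fin n) k} {p : ℕ} {h : k[X]}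
    (H : CorrespondsAt ρ p h) : Att ρ p h := ⟨H.unramified, H.frobenius⟩

theorem of_att {k : Type} [Field k] {n : ℕ} {ρ : GalQ →* GL (Fin n) k} {p : ℕ} {h : k[X]}
    (H : Att ρ p h) : CorrespondsAt ρ p h := ⟨H.unr, H.frob⟩

theorem ncard_eq (X : Set ℕ) (x : ℕ) :
    (({p | p.Prime ∧ p ∈ X} ∩ Set.Iic x : Set ℕ).ncard : ℕ) = cnt X x := by
  unfold cnt
  have h1 : ({p | p.Prime ∧ p ∈ X} ∩ Set.Iic x : Set ℕ) = {p | p ≤ x ∧ p.Prime ∧ p ∈ X} := by
    ext p
    simp only [Set.mem_inter_iff, Set.mem_ofPred_eq, Set.mem_Iic]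
    tauto
  rw [h1]
  rfl

/-- **One residual representation.** For all `n`, `d`, `C` and `δ < 1 / (8 n ^ 2)` there are `A` and
`ℓ₀` such that the following is true for all number fields `K` of degree `d` and all families
`f p ∈ 𝓞 K[X]` with traces of mean square at most `C`. Let `Λ` be a nonempty set of prime ideals of `𝓞 K` of residue
characteristics larger than `ℓ₀`, with residual representations corresponding to `f` outside of
sets `X I` of upper density at most `δ`. Then there are polynomials `F p` such that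

* `F p` is congruent to `f p` modulo `I` for all `I ∈ Λ` and all prime numbers `p ∉ X I`;
* they are given by an Artin representation of order at most `A`, and by `ℓ`-adic representations
  for all `ℓ`, at all prime numbers outside the intersection of the sets `X I`;
* `F p = f p` for these primes if `f p` is tempered;
* for all nonempty finite subsets `s` of `Λ`, if `M` is the product of the norms of the elements of
  `s` and `p ∉ X I` for `I ∈ s`, then `F p = f p` if the conjugates of the coefficients of `f p` are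
  at most `B` with `(B + 2 ^ n) ^ d < M`; and the upper density of the set of these `p` for which the
  traces of `F p` and `f p` are different is at most `4 C M ^ (-2 / d)`. -/
theorem result (n d : ℕ) (hn : 0 < n) (hd : 0 < d) (C : ℝ) (hC : 0 < C) (δ : ℝ)
    (hδ : δ < 1 / (8 * n ^ 2)) :
    ∃ A ℓ₀ : ℕ,
      ∀ (K : Type) [Field K] [NumberField K], Module.finrank ℚ K = d →
      ∀ f : ℕ → (𝓞 K)[X], MeanSquare n f C →
      ∀ (Λ : Set (Ideal (𝓞 K))) (X : Ideal (𝓞 K) → Set ℕ), Λ.Nonempty →
      (∀ I ∈ Λ, I.IsPrime ∧ (∃ ℓ : ℕ, ℓ.Prime ∧ ℓ₀ < ℓ ∧ (ℓ : 𝓞 K) ∈ I) ∧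
        DensityLE (X I) δ ∧ HasResidual n f I (X I)) →
      ∃ F : ℕ → (𝓞 K)[X],
        (∀ I ∈ Λ, ∀ p, p.Prime → p ∉ X I →
          (F p).map (Ideal.Quotient.mk I) = (f p).map (Ideal.Quotient.mk I)) ∧
        IsGalois n F A {p | ∃ I ∈ Λ, p ∉ X I} ∧
        (∀ p, p.Prime → (∃ I ∈ Λ, p ∉ X I) → Tempered n (f p) → F p = f p) ∧
        ∀ s : Finset (Ideal (𝓞 K)), s.Nonempty → (∀ I ∈ s, I ∈ Λ) →
          (∀ p, p.Prime → (∀ I ∈ s, p ∉ X I) → ∀ B : ℝ,
            (∀ (σ : K →+* ℂ) (i : ℕ), ‖σ ((f p).coeff i : 𝓞 K)‖ ≤ B) →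
            (B + 2 ^ n) ^ d < ((∏ I ∈ s, Ideal.absNorm I : ℕ) : ℝ) → F p = f p) ∧
          DensityLE {p | (∀ I ∈ s, p ∉ X I) ∧ trace n (F p) ≠ trace n (f p)}
            (4 * C * ((∏ I ∈ s, Ideal.absNorm I : ℕ) : ℝ) ^ (-(2 / (d : ℝ)))) := by
  obtain ⟨A, ℓ₀, H⟩ := Pool.Agent.L0h46.DT.main n d hn hd C hC δ (by
    rw [lt_div_iff₀ (by positivity)] at hδ
    linarith)
  refine ⟨A, ℓ₀, ?_⟩
  intro K _ _ hK f hf Λ X hΛ hres
  obtain ⟨F, hF1, hF2, hF3, hF4⟩ := H K hK f hf Λ X hΛ (by
    intro I hI
    obtain ⟨hIp, hℓ, hX, k, ik, φ, ρ, h1, h2, h3, h4⟩ := hres I hI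
    refine ⟨hIp.ne_top, hℓ, ?_, k, ik, φ, ρ, h1, h2, h3, fun p hp hpX => att_of (h4 p hp hpX)⟩
    filter_upwards [hX] with x hx
    rwa [ncard_eq] at hx)
  have hartin : ∀ e : K →+* QBar, ∃ R : GalQ →* GL (Fin n) QBar, IsOpen (R.ker : Set GalQ) ∧
      Nat.card R.range ≤ A ∧ ∀ p, p.Prime → (∃ I ∈ Λ, p ∉ X I) →
        CorrespondsAt R p (via e (F p)) := by
    intro e
    obtain ⟨R, hR1, hR2, hR3⟩ := hF1 e
    refine ⟨R, hR1, ?_, fun p hp hpX => of_att (hR3 p hp hpX)⟩
    rwa [← Nat.card_congr (QuotientGroup.quotientKerEquivRange R).toEquiv]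
  refine ⟨F, ?_, ⟨?_, ?_⟩, hF3, ?_⟩
  · intro I hI p hp hpX
    ext1 i
    rw [coeff_map, coeff_map, Ideal.Quotient.eq]
    exact hF2 I hI p hp hpX i
  · intro e
    obtain ⟨R, hR1, hR2, hR3⟩ := hartin e
    exact ⟨R, hR1, hR2, fun p hp hpp => hR3 p hpp hp⟩
  · intro ℓ _ j
    obtain ⟨e⟩ : Nonempty (K →+* QBar) := inferInstance
    obtain ⟨R, hR1, hR2, hR3⟩ := hartin e
    obtain ⟨τ, hτ⟩ := exists_extend e (Ω := PadicAlgCl ℓ) j
    let ρ : GalQ →* GL (Fin n) (PadicAlgCl ℓ) := (Matrix.GeneralLinearGroup.map τ).comp R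
    have hρm : ∀ g, mat ρ g = (mat R g).map τ := fun g => rfl
    have hker : R.ker ≤ ρ.ker := by
      intro g hg
      rw [MonoidHom.mem_ker, MonoidHom.comp_apply, MonoidHom.mem_ker.1 hg, map_one]
    have hopen : IsOpen (ρ.ker : Set GalQ) := Subgroup.isOpen_mono hker hR1
    refine ⟨ρ, Pool.Agent.R401.Img.continuous_of_open ρ hopen,
      Pool.Agent.R401.Img.SS_of_open ρ hopen, fun p hp hpp => ⟨?_, ?_⟩⟩
    · intro Q hQ hpQ g hg
      exact hker ((hR3 p hpp hp).unramified Q hQ hpQ g hg)
    · intro Q hQ hpQ g hg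
      rw [hρm, Matrix.charpoly_map, (hR3 p hpp hp).frobenius Q hQ hpQ g hg, via, via,
        Polynomial.map_map, ← RingHom.comp_assoc, hτ]
  · intro s hs hsΛ
    obtain ⟨h1, h2⟩ := hF4 s hs hsΛ
    refine ⟨h1, ?_⟩
    filter_upwards [h2] with x hx
    refine le_of_eq_of_le (congrArg Nat.cast (ncard_eq
      {p | (∀ I ∈ s, p ∉ X I) ∧ trace n (F p) ≠ trace n (f p)} x)) ?_
    have hset : {p | (∀ I ∈ s, p ∉ X I) ∧ trace n (F p) ≠ trace n (f p)} =
        {p | (∀ I ∈ s, p ∉ X I) ∧ (F p).coeff (n - 1) ≠ (f p).coeff (n - 1)} := by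
      ext p
      simp only [Set.mem_ofPred_eq, trace, ne_eq, neg_inj]
    rw [hset]
    set M : ℝ := ((∏ I ∈ s, Ideal.absNorm I : ℕ) : ℝ) with hM
    have hM0 : 0 < M := by
      have h3 : 0 < ∏ I ∈ s, Ideal.absNorm I := by
        refine Finset.prod_pos fun I hI => Nat.pos_of_ne_zero fun h0 => ?_
        rw [Ideal.absNorm_eq_zero_iff] at h0
        obtain ⟨-, ⟨ℓ, hℓ, -, hℓI⟩, -⟩ := hres I (hsΛ I hI)
        rw [h0, Ideal.mem_bot] at hℓI
        exact hℓ.ne_zero (by exact_mod_cast hℓI)
      rw [hM]
      exact_mod_cast h3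
    have hE : 0 < M ^ (2 / (d : ℝ)) := Real.rpow_pos_of_pos hM0 _
    rw [Real.rpow_neg hM0.le, mul_assoc (4 * C), mul_comm (M ^ (2 / (d : ℝ)))⁻¹, ← mul_assoc,
      ← div_eq_mul_inv, le_div_iff₀ hE]
    exact hx

end Pool.Agent.Results.MP_ef641d_nt.OneResidualRepresentation
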