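import Pool.Agent.L0h46.AR.Artin

/-!
# The existence for one prime number `ℓ` implies rationality (all types) and the existence for all
prime numbers (Artin type)

Let `π` be an algebraic cuspidal automorphic representation of `GL_n` over `ℚ` with Hecke polynomials
`f_p ∈ ℂ[X]` (the characteristic polynomials of the classes `a_{π_p}`), and let `ℓ` be **one** prime
number. Suppose that the prediction is true for `π` and `ℓ`: for every isomorphism `ι` of `ℚ̄_ℓ` with
`ℂ` there is a continuous representation `ρ_ι` of `Gal(ℚ̄/ℚ)` over `ℚ̄_ℓ` which corresponds to `π` at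
all prime numbers `p ≠ ℓ` outside of a finite set `S`. There is no further assumption on the `ρ_ι`:
they are not assumed to be de Rham at `ℓ`, or semisimple, and nothing is assumed about the relation
between the `ρ_ι` for different `ι`.

We prove that then **all coefficients of all `f_p`, for `p ∉ S` and `p ≠ ℓ`, are contained in one
number field** (a finite extension of `ℚ`), and that their zeros are units at all places above `ℓ`.
The first statement is the conjecture of Clozel on the rationality of algebraic automorphic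
representations, for the unramified Satake parameters. It is not known if `π_∞` is not regular (for
instance for the Maass forms of Laplace eigenvalue `1/4`), and shows what the existence of Galois
representations, at one prime number, requires.

If `π` is of Artin type (after a twist by a power of `|det|` all `p_i`, `q_i` are zero), we also show
that the prediction for one prime number `ℓ` implies the prediction for all prime numbers `ℓ'` and all
isomorphisms `ι'`, and more: then there is an irreducible Artin representation which corresponds to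
`π`. Here we assume that the traces `a_p` have bounded denominators, for `p` outside of a set `E` of
density zero, and that the mean square of `a_p` is less than `2` (it is at most `1` for a cuspidal
`π` by Rankin and Selberg), and bounded for all conjugates of `π`.

Proof. If a coefficient `c` of `f_p` was transcendental, then there would be an isomorphism `ι` with
`|ι⁻¹(c)| > 1`, but the image of `ρ_ι` is compact. So the coefficients are in `ℚ̄ ⊂ ℂ`. For each `ι`
the traces of `ρ_ι` are contained in a finite extension of `ℚ_ℓ` by Baire's theorem. Fix an embedding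
of `ℚ̄` in `ℚ̄_ℓ`; every automorphism `τ` of `ℚ̄` extends to an `ι`. There are only countably many
finite extensions of `ℚ_ℓ` in `ℚ̄_ℓ` (Krasner), and a second application of Baire's theorem, to the
group `Gal(ℚ̄/ℚ)`, gives a coset `τ₀ U` of an open subgroup `U` and one finite extension of `ℚ_ℓ` which
contains the traces of the `ρ_ι` for all `ι` in this coset. By Faltings' argument there is a finite
set `T` of prime numbers such that two of these representations have the same traces if the traces of
the Frobenius elements at the `p ∈ T` are the same. So the elements of `U` which fix `a_p` for `p ∈ T`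
fix all the coefficients of all `f_p`, and they form an open subgroup of `Gal(ℚ̄/ℚ)`.
-/

set_option autoImplicit false

namespace Pool.Agent.Results.MP_ef641d_nt.Rationality

open NumberField Filter Polynomial Matrix

/-! ### Galois representations -/

/-- The absolute Galois group of the field `K`, with the Krull topology. -/
abbrev AbsGal (K : Type) [Field K] : Type := Gal(AlgebraicClosure K/K)

/-- The field of algebraic numbers. -/
abbrev QBar : Type := AlgebraicClosure ℚ

/-- The ring of algebraic integers. -/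
abbrev ZBar : Type := 𝓞 (AlgebraicClosure ℚ)

/-- The absolute Galois group of `ℚ`. -/
abbrev GalQ : Type := AbsGal ℚ

/-- `g` belongs to the inertia group at the prime ideal `I` of the ring of algebraic integers. -/
def InInertia (I : Ideal ZBar) (g : GalQ) : Prop := ∀ x : ZBar, g • x - x ∈ I

/-- `g` is an arithmetic Frobenius element at the prime ideal `I` above the prime number `p`. Its
inverse is a geometric Frobenius element. -/
def IsFrobenius (p : ℕ) (I : Ideal ZBar) (g : GalQ) : Prop := ∀ x : ZBar, g • x - x ^ p ∈ I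

section
variable {k : Type} [Field k] {n : ℕ}

/-- The matrix of `g`. -/
noncomputable def mat (ρ : GalQ →* GL (Fin n) k) (g : GalQ) : Matrix (Fin n) (Fin n) k :=
  (ρ g : GL (Fin n) k)

/-- `U` is a subrepresentation of `ρ`. -/
def Stable (ρ : GalQ →* GL (Fin n) k) (U : Submodule k (Fin n → k)) : Prop :=
  ∀ g, ∀ x ∈ U, mat ρ g *ᵥ x ∈ U

/-- `ρ` is irreducible: it is not zero, and there are only two subrepresentations. -/
def IsIrreducible (ρ : GalQ →* GL (Fin n) k) : Prop :=
  0 < n ∧ ∀ U, Stable ρ U → U = ⊥ ∨ U = ⊤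

/-- `ρ` is unramified at the prime number `p`, and the geometric Frobenius elements at `p` have the
characteristic polynomial `h`. -/
structure CorrespondsAt (ρ : GalQ →* GL (Fin n) k) (p : ℕ) (h : k[X]) : Prop where
  unramified : ∀ I : Ideal ZBar, I.IsPrime → (p : ZBar) ∈ I → ∀ g, InInertia I g → ρ g = 1
  frobenius : ∀ I : Ideal ZBar, I.IsPrime → (p : ZBar) ∈ I → ∀ g, IsFrobenius p I g →
    (mat ρ g⁻¹).charpoly = h

end

/-! ### Sets of primes and Hecke polynomials -/

open Classical in
/-- The prime numbers up to `x` which are not in `E`. -/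
noncomputable def primesOutside (E : Set ℕ) (x : ℕ) : Finset ℕ :=
  (Finset.range (x + 1)).filter fun p => p.Prime ∧ p ∉ E

/-- The set `X` of prime numbers has natural density zero. -/
def DensityZero (X : Set ℕ) : Prop :=
  ∀ δ : ℝ, 0 < δ → ∀ᶠ x : ℕ in atTop,
    ((({p | p.Prime ∧ p ∈ X} ∩ Set.Iic x : Set ℕ).ncard : ℕ) : ℝ) ≤ δ * Nat.primeCounting x

/-- The trace `a_p` of the Hecke polynomial `h = X ^ n - a_p X ^ (n - 1) + ...`. -/
def trace (n : ℕ) (h : ℂ[X]) : ℂ := -h.coeff (n - 1)

/-- The sum of `|α(a_p)| ^ 2` over the `p ≤ x` not in `E` is at most `C π(x)`, for large `x`. -/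
def MeanSquare (n : ℕ) (f : ℕ → ℂ[X]) (E : Set ℕ) (α : ℂ ≃+* ℂ) (C : ℝ) : Prop :=
  ∀ᶠ x : ℕ in atTop,
    ∑ p ∈ primesOutside E x, ‖α (trace n (f p))‖ ^ 2 ≤ C * Nat.primeCounting x

/-- The prediction is true for the prime number `ℓ`: for all isomorphisms `ι` of `ℚ̄_ℓ` with `ℂ` there
is a continuous representation over `ℚ̄_ℓ` with the Hecke polynomials `ι⁻¹(f p)` at all prime numbers
`p ≠ ℓ` not in `S`. -/
def ExistsForAllIsomorphisms (n : ℕ) (f : ℕ → ℂ[X]) (S : Set ℕ) (ℓ : ℕ) : Prop :=
  ∃ _ : Fact ℓ.Prime, ∀ ι : PadicAlgCl ℓ ≃+* ℂ, ∃ ρ : GalQ →* GL (Fin n) (PadicAlgCl ℓ),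
    Continuous ρ ∧ ∀ p, p.Prime → p ∉ S → p ≠ ℓ →
      CorrespondsAt ρ p ((f p).map (ι.symm : ℂ →+* PadicAlgCl ℓ))

/-! ### The proof -/

open Pool.Agent.L0h46.VR Pool.Agent.L0h46.DS Pool.Agent.R401.Img Pool.Agent.R401.DS
open Pool.Agent.R401.Dens Pool.Agent.L0h46.AR

theorem of_att {k : Type} [Field k] {n : ℕ} {ρ : GalQ →* GL (Fin n) k} {p : ℕ} {h : k[X]}
    (H : Att ρ p h) : CorrespondsAt ρ p h := ⟨H.unr, H.frob⟩

theorem ncard_eq (X : Set ℕ) (x : ℕ) :
    (({p | p.Prime ∧ p ∈ X} ∩ Set.Iic x : Set ℕ).ncard : ℕ) = cnt X x := by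
  unfold cnt
  have h1 : ({p | p.Prime ∧ p ∈ X} ∩ Set.Iic x : Set ℕ) = {p | p ≤ x ∧ p.Prime ∧ p ∈ X} := by
    ext p
    simp only [Set.mem_inter_iff, Set.mem_ofPred_eq, Set.mem_Iic]
    tauto
  rw [h1]
  rfl

/-- absolute irreducibility -/
theorem irreducible_of_span {Ω : Type} [Field Ω] {n : ℕ} (hn : 0 < n) (R : GalQ →* GL (Fin n) QBar)
    (hR : ∀ M : Matrix (Fin n) (Fin n) QBar, M ∈ Submodule.span QBar (Set.range fun g => mt R g))
    (ψ : QBar →+* Ω) : IsIrreducible ((Matrix.GeneralLinearGroup.map ψ).comp R) := by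
  refine ⟨hn, fun U hU => ?_⟩
  by_cases hU0 : U = ⊥
  · exact Or.inl hU0
  right
  obtain ⟨x, hx, hx0⟩ := Submodule.exists_mem_ne_zero_of_ne_bot hU0
  have h1 : ∀ M : Matrix (Fin n) (Fin n) QBar, ∀ x ∈ U, M.map ψ *ᵥ x ∈ U := by
    intro M x hx
    have h2 := hR M
    induction h2 using Submodule.span_induction with
    | mem M hM =>
      obtain ⟨g, rfl⟩ := hM
      exact hU g x hx
    | zero =>
      have h3 : (0 : Matrix (Fin n) (Fin n) QBar).map ψ = 0 := by
        ext i j
        simp
      rw [h3, Matrix.zero_mulVec]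
      exact U.zero_mem
    | add M N _ _ hM hN =>
      rw [Matrix.map_add ψ (map_add ψ), Matrix.add_mulVec]
      exact U.add_mem hM hN
    | smul c M _ hM =>
      have h3 : (c • M).map ψ = ψ c • M.map ψ := by
        ext i j
        simp
      rw [h3, Matrix.smul_mulVec]
      exact U.smul_mem _ hM
  obtain ⟨i, hi⟩ : ∃ i, x i ≠ 0 := by
    by_contra hcon
    push Not at hcon
    exact hx0 (funext hcon)
  rw [eq_top_iff]
  rintro y -
  have h2 : ∀ k : Fin n, Pi.single k (1 : Ω) ∈ U := by
    intro k
    have h3 := h1 (Matrix.single k i 1) x hx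
    have h4 : (Matrix.single k i (1 : QBar)).map ψ *ᵥ x = x i • Pi.single k (1 : Ω) := by
      rw [Matrix.map_single, map_one]
      ext l
      rw [Matrix.single_mulVec]
      simp [Pi.single_apply, Function.update_apply]
    rw [h4] at h3
    have h5 := U.smul_mem (x i)⁻¹ h3
    rwa [smul_smul, inv_mul_cancel₀ hi, one_smul] at h5
  have h3 : y = ∑ k, y k • Pi.single k (1 : Ω) := by
    ext l
    simp [Finset.sum_apply, Pi.single_apply]
  rw [h3]
  exact U.sum_mem fun k _ => U.smul_mem _ (h2 k)

theorem stable_irr {n : ℕ} {R : GalQ →* GL (Fin n) QBar}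
    (h : IsIrreducible ((Matrix.GeneralLinearGroup.map (RingHom.id QBar)).comp R)) :
    IsIrreducible R := by
  have h1 : (Matrix.GeneralLinearGroup.map (RingHom.id QBar)).comp R = R := by
    rw [Matrix.GeneralLinearGroup.map_id]
    rfl
  rwa [h1] at h

theorem map_coeffs {n : ℕ} {k Ω : Type} [Field k] [Field Ω] {R : GalQ →* GL (Fin n) k} {p : ℕ} {h : k[X]}
    (H : Att R p h) (ψ : k →+* Ω) :
    CorrespondsAt ((Matrix.GeneralLinearGroup.map ψ).comp R) p (h.map ψ) := by
  constructor
  · intro I hI hpI g hg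
    rw [MonoidHom.comp_apply, H.unr I hI hpI g hg, map_one]
  · intro I hI hpI g hg
    have h2 : mat ((Matrix.GeneralLinearGroup.map ψ).comp R) g⁻¹ = (mt R g⁻¹).map ψ := rfl
    rw [h2, Matrix.charpoly_map, H.frob I hI hpI g hg]

/-- **The prediction for one prime number `ℓ` implies rationality, and for Artin type it implies the
prediction for all prime numbers.**

Let `n > 0`, and let `f p ∈ ℂ[X]` be the Hecke polynomials, let `S` be a finite set, and let `L` be a
nonempty set of prime numbers such that the prediction is true for all `ℓ ∈ L` (for instance `L` has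
one element). Let `p ∉ S` be a prime number which is different from one of the elements of `L`. Then

1. the coefficients of `f p`, for all these `p`, are contained in one number field;
2. the zeros of `f p` are units at all the places above the elements of `L` different from `p`;
3. if the `a_p` for `p ∉ E` have bounded denominators, if their mean square is less than two and if it
   is bounded in all conjugates, where `E` is a set of density zero, then

   * there is an irreducible Artin representation with the Hecke polynomials `f p` at all these `p`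
     (for each embedding of `ℚ̄` in `ℂ`);
   * for all prime numbers `ℓ'` and all isomorphisms `ι'` there is a continuous irreducible
     representation over `ℚ̄_ℓ'` with the Hecke polynomials `f p` at all these `p`;
   * the zeros of all these `f p` are `m`-th roots of unity for some `m > 0`. -/
theorem result {n : ℕ} (hn : 0 < n) (f : ℕ → ℂ[X]) (S : Set ℕ) (hS : S.Finite) (L : Set ℕ)
    (hL : L.Nonempty) (h : ∀ ℓ ∈ L, ExistsForAllIsomorphisms n f S ℓ) :
    (∃ K : IntermediateField ℚ ℂ, FiniteDimensional ℚ K ∧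
      ∀ p, p.Prime → p ∉ S → (∃ ℓ ∈ L, ℓ ≠ p) → ∀ i, (f p).coeff i ∈ K) ∧
    (∀ (ℓ : ℕ) [Fact ℓ.Prime] (ι : PadicAlgCl ℓ ≃+* ℂ), ℓ ∈ L → ∀ p, p.Prime → p ∉ S → p ≠ ℓ →
      ∀ z, (f p).IsRoot z → ‖ι.symm z‖ = 1) ∧
    (∀ E : Set ℕ, DensityZero E → ∀ D : ℕ, 0 < D →
      (∀ p, p.Prime → p ∉ E → IsIntegral ℤ ((D : ℂ) * trace n (f p))) →
      ∀ C : ℝ, (∀ α : ℂ ≃+* ℂ, MeanSquare n f E α C) →
      ∀ C₀ : ℝ, C₀ < 2 → MeanSquare n f E (RingEquiv.refl ℂ) C₀ →
      (∀ e : QBar →+* ℂ, ∃ R : GalQ →* GL (Fin n) QBar, IsOpen (R.ker : Set GalQ) ∧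
        IsIrreducible R ∧ ∀ p, p.Prime → p ∉ S → (∃ ℓ ∈ L, ℓ ≠ p) →
          CorrespondsAt ((Matrix.GeneralLinearGroup.map e).comp R) p (f p)) ∧
      (∀ (ℓ' : ℕ) [Fact ℓ'.Prime] (ι' : PadicAlgCl ℓ' ≃+* ℂ),
        ∃ ρ : GalQ →* GL (Fin n) (PadicAlgCl ℓ'), Continuous ρ ∧ IsIrreducible ρ ∧
        ∀ p, p.Prime → p ∉ S → (∃ ℓ ∈ L, ℓ ≠ p) →
          CorrespondsAt ρ p ((f p).map (ι'.symm : ℂ →+* PadicAlgCl ℓ'))) ∧
      ∃ m : ℕ, 0 < m ∧ ∀ p, p.Prime → p ∉ S → (∃ ℓ ∈ L, ℓ ≠ p) →
        ∀ z : ℂ, (f p).IsRoot z → z ^ m = 1) := by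
  classical
  have h' : ∀ ℓ ∈ L, ∃ _ : Fact ℓ.Prime, HasIota n f S ℓ := by
    intro ℓ hℓ
    obtain ⟨h1, h2⟩ := h ℓ hℓ
    refine ⟨h1, fun ι => ?_⟩
    obtain ⟨ρ, hρ, hA⟩ := h2 ι
    exact ⟨ρ, hρ, fun p hp hpS hpℓ => ⟨(hA p hp hpS hpℓ).unramified, (hA p hp hpS hpℓ).frobenius⟩⟩
  refine ⟨exists_field hn f S hS L hL h', ?_, ?_⟩
  · intro ℓ _ ι hℓ p hp hpS hpℓ z hz
    obtain ⟨h1, h2⟩ := h' ℓ hℓ
    exact norm_root h2 ι hp hpS hpℓ hz
  intro E hE D hD hint C hC C₀ hC₀ hσ₀
  have hE' : ∀ δ : ℝ, 0 < δ → ∀ᶠ N : ℕ in atTop, (cnt E N : ℝ) ≤ δ * Nat.primeCounting N := by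
    intro δ hδ
    filter_upwards [hE δ hδ] with N h1
    rwa [ncard_eq] at h1
  have hset : ∀ N : ℕ, (primesTo N).filter (· ∉ E) = primesOutside E N := by
    intro N
    ext p
    unfold primesOutside
    rw [Finset.mem_filter, mem_primesTo, Finset.mem_filter, Finset.mem_range]
    constructor
    · rintro ⟨⟨h1, h2⟩, h3⟩
      exact ⟨by omega, h2, h3⟩
    · rintro ⟨h1, h2, h3⟩
      exact ⟨⟨by omega, h2⟩, h3⟩
  obtain ⟨K, e, R, hK, hRo, hRs, hRc⟩ := artin hn f S hS L hL h' E hE' hD hint C (by
    intro α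
    filter_upwards [hC α] with N hN
    rw [hset]
    exact hN) C₀ hC₀ (by
    filter_upwards [hσ₀] with N hN
    rw [hset]
    exact hN)
  have hnf : NumberField K := ⟨⟩
  refine ⟨?_, ?_, ?_⟩
  · intro ε
    -- change the embedding: `ε ∘ φ ∘ e` is the inclusion of `K`
    obtain ⟨ψ, hψ⟩ := exists_extend e (algebraMap K ℂ)
    obtain ⟨φ, hφ⟩ : ∃ φ : QBar →+* QBar, ε.comp φ = ψ := by
      have h1 : ∀ x : QBar, ∃ y : QBar, ε y = ψ x := by
        intro x
        have h0 : Algebra.IsAlgebraic ℚ QBar := AlgebraicClosure.isAlgebraic ℚ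
        refine exists_lift ε ?_
        obtain ⟨q, hq, hqx⟩ := h0.isAlgebraic x
        refine ⟨q, hq, ?_⟩
        rw [aeval_def] at hqx ⊢
        have h2 := congrArg ψ hqx
        rw [hom_eval₂, map_zero] at h2
        have h3 : ψ.comp (algebraMap ℚ QBar) = algebraMap ℚ ℂ := Subsingleton.elim _ _
        rw [← h3]
        exact h2
      choose y hy using h1
      refine ⟨{ toFun := y, map_one' := ?_, map_mul' := ?_, map_zero' := ?_, map_add' := ?_ }, ?_⟩
      · exact ε.injective (by rw [hy, map_one, map_one])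
      · intro a b
        exact ε.injective (by rw [hy, map_mul, map_mul, hy, hy])
      · exact ε.injective (by rw [hy, map_zero, map_zero])
      · intro a b
        exact ε.injective (by rw [hy, map_add, map_add, hy, hy])
      · ext x
        exact hy x
    have hirr := irreducible_of_span hn R hRs φ
    have hker : R.ker ≤ ((Matrix.GeneralLinearGroup.map φ).comp R).ker := by
      intro x hx
      rw [MonoidHom.mem_ker] at hx ⊢
      rw [MonoidHom.comp_apply, hx, map_one]
    refine ⟨(Matrix.GeneralLinearGroup.map φ).comp R, Subgroup.isOpen_mono hker hRo, hirr,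
      fun p hp hpS hpL => ?_⟩
    obtain ⟨g, hg, hgA⟩ := hRc p hp hpS hpL
    have h1 := map_coeffs hgA ψ
    rw [Polynomial.map_map, hψ, hg] at h1
    have h2 : (Matrix.GeneralLinearGroup.map ε).comp ((Matrix.GeneralLinearGroup.map φ).comp R) =
        (Matrix.GeneralLinearGroup.map (n := Fin n) ψ).comp R := by
      rw [← hφ, Matrix.GeneralLinearGroup.map_comp]
      rfl
    rw [h2]
    exact h1
  · intro ℓ' _ ι'
    obtain ⟨ψ, hψ⟩ := exists_extend e ((ι'.symm : ℂ →+* PadicAlgCl ℓ').comp (algebraMap K ℂ))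
    have hker : R.ker ≤ ((Matrix.GeneralLinearGroup.map ψ).comp R).ker := by
      intro x hx
      rw [MonoidHom.mem_ker] at hx ⊢
      rw [MonoidHom.comp_apply, hx, map_one]
    have hopen : IsOpen (((Matrix.GeneralLinearGroup.map ψ).comp R).ker : Set GalQ) :=
      Subgroup.isOpen_mono hker hRo
    refine ⟨(Matrix.GeneralLinearGroup.map ψ).comp R,
      Pool.Agent.R401.Img.continuous_of_open _ hopen, irreducible_of_span hn R hRs ψ,
      fun p hp hpS hpL => ?_⟩
    obtain ⟨g, hg, hgA⟩ := hRc p hp hpS hpL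
    have h1 := map_coeffs hgA ψ
    rw [Polynomial.map_map, hψ, ← Polynomial.map_map, hg] at h1
    exact h1
  · refine ⟨Nat.card (GalQ ⧸ R.ker), (mt_pow_card hRo 1).1, ?_⟩
    intro p hp hpS hpL z hz
    obtain ⟨I, g, hI, hpI, hg⟩ := exists_frobAt hp
    obtain ⟨τ, hτ⟩ := exists_extend e (algebraMap K ℂ)
    obtain ⟨q, hq, hqA⟩ := hRc p hp hpS hpL
    have h1 : ((mt R g⁻¹).map τ).charpoly = f p := by
      rw [Matrix.charpoly_map, hqA.frob I hI.isPrime hpI g hg, Polynomial.map_map, hτ, hq]
    have h2 : (mt R g⁻¹).map τ ^ Nat.card (GalQ ⧸ R.ker) = 1 := by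
      have h3 : (mt R g⁻¹).map τ ^ Nat.card (GalQ ⧸ R.ker) =
          ((mt R g⁻¹) ^ Nat.card (GalQ ⧸ R.ker)).map τ :=
        (map_pow (τ.mapMatrix (m := Fin n)) (mt R g⁻¹) _).symm
      rw [h3, (mt_pow_card hRo g⁻¹).2]
      exact map_one (τ.mapMatrix (m := Fin n))
    refine root_pow h2 ?_
    rw [mem_roots (Matrix.charpoly_monic _).ne_zero, h1]
    exact hz

end Pool.Agent.Results.MP_ef641d_nt.Rationality
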