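import Pool.Agent.L0h46.VR.Fin

/-!
# A virtual ℓ-adic representation for one prime number ℓ suffices (Artin type)

Let `π` be a cuspidal automorphic representation of `GL_n` over `ℚ` of Artin type (after a twist with
a power of `|det|` the integers `p_i`, `q_i` are all zero), for instance `n = 2` and `π` is given by a
Maass form of Laplace eigenvalue `1/4`. Suppose that its Hecke polynomials `f_p`, the characteristic
polynomials of the classes `a_{π_p}`, have coefficients in a number field `K`, that the traces `a_p`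
have bounded denominators for `p` outside a set `E` of density zero, and that their mean square is
bounded in all embeddings of `K`, and less than `2` in the given one. (For a cuspidal representation
the mean square is at most `1` by Rankin and Selberg; for `K = ℚ` and for imaginary quadratic `K` there
are no other absolute values.)

The prediction is that `π` is given by `ℓ`-adic representations for all `ℓ`. Suppose that for **one**
prime number `ℓ` and one embedding of `K` in an `ℓ`-adic field the polynomials `f_p` are given by a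
**virtual** representation `V - W`, where `V` and `W` are any continuous representations, not assumed
to be semisimple, pure or de Rham (in the applications `V` and `W` would be the even and the odd part
of the `ℓ`-adic cohomology of a variety, or of an eigenspace of it). We prove that then there is an
**irreducible Artin representation** `R` which corresponds to `π`: so `f_p` is given by `R` for all
`p ≠ ℓ` at which `V - W` corresponds to `π`, the Ramanujan conjecture holds for `π` at these primes
(the Satake parameters are roots of unity), and for **all** prime numbers `ℓ'` and all isomorphisms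
`ℚ̄_ℓ' ≅ ℂ` there is an irreducible `ℓ'`-adic representation corresponding to `π`. If there are such
virtual representations for two prime numbers `ℓ`, then `p = ℓ` is not excluded.

In particular (`W = 0`): if the prediction is true for `π`, one prime number and one isomorphism, then
it is true for all prime numbers `ℓ'` and all isomorphisms, except possibly for the compatibility at
the one prime `p = ℓ`; and it is true at all primes if it is true for two prime numbers.

Proof. By Chebotarev's theorem for closed sets, Burnside's counting argument and the trace form the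
traces of the virtual representation are constant on the cosets of an open subgroup, so that they
define a class function `T` on a finite Galois group `H` with values in `K`. It has an integral value
at every idempotent `E` of the group algebra of `H`: the difference of the traces of `x ^ k` on `V` and
`W`, for a lift `x` of `E`, is independent of `k > 0`. So `T` is a virtual character of `H`. By
Chebotarev's theorem its norm is less than `2`, so that `T` is an irreducible character. The
characteristic polynomials are determined by the traces of the powers.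
-/

set_option autoImplicit false

namespace Pool.Agent.Results.MP_ef641d_nt.VirtualRepresentation

open NumberField Filter Polynomial Matrix

/-! ### Galois representations -/

/-- The absolute Galois group of the field `K`, with the Krull topology. -/
abbrev AbsGal (K : Type) [Field K] : Type := Gal(AlgebraicClosure K/K)

/-- The field of algebraic numbers. -/
abbrev QBar : Type := AlgebraicClosure ℚ

/-- The ring of algebraic integers. -/
abbrev ZBar : Type := 𝓞 (AlgebraicClosure ℚ)

/-- The absolute Galois group of `ℚ`. -/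
abbrev GalQ : Type := AbsGal ℚ

/-- `g` belongs to the inertia group at the prime ideal `I` of the ring of algebraic integers. -/
def InInertia (I : Ideal ZBar) (g : GalQ) : Prop := ∀ x : ZBar, g • x - x ∈ I

/-- `g` is an arithmetic Frobenius element at the prime ideal `I` above the prime number `p`. Its
inverse is a geometric Frobenius element. -/
def IsFrobenius (p : ℕ) (I : Ideal ZBar) (g : GalQ) : Prop := ∀ x : ZBar, g • x - x ^ p ∈ I

section
variable {k : Type} [Field k] {n : ℕ}

/-- The matrix of `g`. -/
noncomputable def mat (ρ : GalQ →* GL (Fin n) k) (g : GalQ) : Matrix (Fin n) (Fin n) k :=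
  (ρ g : GL (Fin n) k)

/-- `U` is a subrepresentation of `ρ`. -/
def Stable (ρ : GalQ →* GL (Fin n) k) (U : Submodule k (Fin n → k)) : Prop :=
  ∀ g, ∀ x ∈ U, mat ρ g *ᵥ x ∈ U

/-- `ρ` is irreducible: it is not zero, and there are only two subrepresentations. -/
def IsIrreducible (ρ : GalQ →* GL (Fin n) k) : Prop :=
  0 < n ∧ ∀ U, Stable ρ U → U = ⊥ ∨ U = ⊤

/-- `ρ` is unramified at the prime number `p`, and the geometric Frobenius elements at `p` have the
characteristic polynomial `h`. -/
structure CorrespondsAt (ρ : GalQ →* GL (Fin n) k) (p : ℕ) (h : k[X]) : Prop where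
  unramified : ∀ I : Ideal ZBar, I.IsPrime → (p : ZBar) ∈ I → ∀ g, InInertia I g → ρ g = 1
  frobenius : ∀ I : Ideal ZBar, I.IsPrime → (p : ZBar) ∈ I → ∀ g, IsFrobenius p I g →
    (mat ρ g⁻¹).charpoly = h

/-- The virtual representation `V - W` corresponds to `h` at the prime number `p`: `V` and `W` are
unramified at `p`, and `h` is the quotient of the characteristic polynomials of the geometric
Frobenius elements on `V` and `W`. -/
structure CorrespondsVirtually {a b : ℕ} (V : GalQ →* GL (Fin a) k) (W : GalQ →* GL (Fin b) k)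
    (p : ℕ) (h : k[X]) : Prop where
  unramified : ∀ I : Ideal ZBar, I.IsPrime → (p : ZBar) ∈ I → ∀ g, InInertia I g →
    V g = 1 ∧ W g = 1
  frobenius : ∀ I : Ideal ZBar, I.IsPrime → (p : ZBar) ∈ I → ∀ g, IsFrobenius p I g →
    (mat V g⁻¹).charpoly = h * (mat W g⁻¹).charpoly

end

/-! ### Sets of primes and Hecke polynomials -/

open Classical in
/-- The prime numbers up to `x` which are not in `E`. -/
noncomputable def primesOutside (E : Set ℕ) (x : ℕ) : Finset ℕ :=
  (Finset.range (x + 1)).filter fun p => p.Prime ∧ p ∉ E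

/-- The set `X` of prime numbers has natural density zero. -/
def DensityZero (X : Set ℕ) : Prop :=
  ∀ δ : ℝ, 0 < δ → ∀ᶠ x : ℕ in atTop,
    ((({p | p.Prime ∧ p ∈ X} ∩ Set.Iic x : Set ℕ).ncard : ℕ) : ℝ) ≤ δ * Nat.primeCounting x

section
variable {K : Type} [Field K]

/-- The trace `a_p` of the Hecke polynomial `h = X ^ n - a_p X ^ (n - 1) + ...`. -/
def trace (n : ℕ) (h : K[X]) : K := -h.coeff (n - 1)

/-- The sum of `|σ(a_p)| ^ 2` over the `p ≤ x` not in `E` is at most `C π(x)`, for large `x`. -/
def MeanSquare (n : ℕ) (f : ℕ → K[X]) (E : Set ℕ) (σ : K →+* ℂ) (C : ℝ) : Prop :=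
  ∀ᶠ x : ℕ in atTop,
    ∑ p ∈ primesOutside E x, ‖σ (trace n (f p))‖ ^ 2 ≤ C * Nat.primeCounting x

/-- There are an `ℓ`-adic field `F` (an extension of `ℚ_ℓ` with an absolute value which extends the
`ℓ`-adic one), an embedding `j` of `K` in `F` and continuous representations `V`, `W` over `F`, of
dimensions `b + n` and `b`, such that `V - W` corresponds to the Hecke polynomials `f p` at all prime
numbers `p ≠ ℓ` not in `S`. -/
def HasVirtual (n : ℕ) (f : ℕ → K[X]) (S : Set ℕ) (ℓ : ℕ) : Prop :=
  ∃ (_ : Fact ℓ.Prime) (F : Type) (_ : NormedField F) (_ : NormedAlgebra ℚ_[ℓ] F) (j : K →+* F)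
    (b : ℕ) (V : GalQ →* GL (Fin (b + n)) F) (W : GalQ →* GL (Fin b) F),
    Continuous V ∧ Continuous W ∧
      ∀ p, p.Prime → p ∉ S → p ≠ ℓ → CorrespondsVirtually V W p ((f p).map j)

end

/-! ### The proof -/

open Pool.Agent.L0h46.VR Pool.Agent.L0h46.DS Pool.Agent.R401.Img Pool.Agent.R401.DS
open Pool.Agent.R401.Dens

theorem of_att {k : Type} [Field k] {n : ℕ} {ρ : GalQ →* GL (Fin n) k} {p : ℕ} {h : k[X]}
    (H : Att ρ p h) : CorrespondsAt ρ p h := ⟨H.unr, H.frob⟩

theorem ncard_eq (X : Set ℕ) (x : ℕ) :
    (({p | p.Prime ∧ p ∈ X} ∩ Set.Iic x : Set ℕ).ncard : ℕ) = cnt X x := by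
  unfold cnt
  have h1 : ({p | p.Prime ∧ p ∈ X} ∩ Set.Iic x : Set ℕ) = {p | p ≤ x ∧ p.Prime ∧ p ∈ X} := by
    ext p
    simp only [Set.mem_inter_iff, Set.mem_ofPred_eq, Set.mem_Iic]
    tauto
  rw [h1]
  rfl

/-- absolute irreducibility -/
theorem irreducible_of_span {Ω : Type} [Field Ω] {n : ℕ} (hn : 0 < n) (R : GalQ →* GL (Fin n) QBar)
    (hR : ∀ M : Matrix (Fin n) (Fin n) QBar, M ∈ Submodule.span QBar (Set.range fun g => mt R g))
    (ψ : QBar →+* Ω) : IsIrreducible ((Matrix.GeneralLinearGroup.map ψ).comp R) := by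
  refine ⟨hn, fun U hU => ?_⟩
  by_cases hU0 : U = ⊥
  · exact Or.inl hU0
  right
  obtain ⟨x, hx, hx0⟩ := Submodule.exists_mem_ne_zero_of_ne_bot hU0
  have h1 : ∀ M : Matrix (Fin n) (Fin n) QBar, ∀ x ∈ U, M.map ψ *ᵥ x ∈ U := by
    intro M x hx
    have h2 := hR M
    induction h2 using Submodule.span_induction with
    | mem M hM =>
      obtain ⟨g, rfl⟩ := hM
      exact hU g x hx
    | zero =>
      have h3 : (0 : Matrix (Fin n) (Fin n) QBar).map ψ = 0 := by
        ext i j
        simp
      rw [h3, Matrix.zero_mulVec]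
      exact U.zero_mem
    | add M N _ _ hM hN =>
      rw [Matrix.map_add ψ (map_add ψ), Matrix.add_mulVec]
      exact U.add_mem hM hN
    | smul c M _ hM =>
      have h3 : (c • M).map ψ = ψ c • M.map ψ := by
        ext i j
        simp
      rw [h3, Matrix.smul_mulVec]
      exact U.smul_mem _ hM
  obtain ⟨i, hi⟩ : ∃ i, x i ≠ 0 := by
    by_contra hcon
    push Not at hcon
    exact hx0 (funext hcon)
  rw [eq_top_iff]
  rintro y -
  have h2 : ∀ k : Fin n, Pi.single k (1 : Ω) ∈ U := by
    intro k
    have h3 := h1 (Matrix.single k i 1) x hx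
    have h4 : (Matrix.single k i (1 : QBar)).map ψ *ᵥ x = x i • Pi.single k (1 : Ω) := by
      rw [Matrix.map_single, map_one]
      ext l
      rw [Matrix.single_mulVec]
      simp [Pi.single_apply, Function.update_apply]
    rw [h4] at h3
    have h5 := U.smul_mem (x i)⁻¹ h3
    rwa [smul_smul, inv_mul_cancel₀ hi, one_smul] at h5
  have h3 : y = ∑ k, y k • Pi.single k (1 : Ω) := by
    ext l
    simp [Finset.sum_apply, Pi.single_apply]
  rw [h3]
  exact U.sum_mem fun k _ => U.smul_mem _ (h2 k)

theorem stable_irr {n : ℕ} {R : GalQ →* GL (Fin n) QBar}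
    (h : IsIrreducible ((Matrix.GeneralLinearGroup.map (RingHom.id QBar)).comp R)) :
    IsIrreducible R := by
  have h1 : (Matrix.GeneralLinearGroup.map (RingHom.id QBar)).comp R = R := by
    rw [Matrix.GeneralLinearGroup.map_id]
    rfl
  rwa [h1] at h

/-- **Virtual representations for one prime number suffice.**

Let `K` be a number field, `n > 0`, and let `f p ∈ K[X]` be the Hecke polynomials. Let `S` and `E` be
sets of prime numbers of density zero. Let the traces `a_p` of the `f p` have bounded denominators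
for `p ∉ E`, and let them have bounded mean square in all embeddings of `K` in `ℂ`, and mean square
less than two in one of them.

Let `L` be a nonempty set of prime numbers such that for each `ℓ ∈ L` the polynomials `f p` are given
by a virtual representation of dimension `n` over an `ℓ`-adic field at all prime numbers `p ≠ ℓ` not
in `S`. Let `p ∉ S` be a prime number which is different from one of the elements of `L` (for
instance any `p ∉ S` if `L` has more than one element). Then

* for all embeddings of `K` in `ℚ̄` there is an irreducible Artin representation over `ℚ̄` with the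
  Hecke polynomials `f p` at all these prime numbers `p`;
* for all prime numbers `ℓ'` and all embeddings of `K` in `ℚ̄_ℓ'` there is a continuous irreducible
  representation over `ℚ̄_ℓ'` with the Hecke polynomials `f p` at all these prime numbers `p`;
* the zeros of all these `f p`, in all embeddings of `K` in `ℂ`, are `m`-th roots of unity for some
  `m > 0`. -/
theorem result {K : Type} [Field K] [NumberField K] {n : ℕ} (hn : 0 < n) (f : ℕ → K[X])
    (S E : Set ℕ) (hS : DensityZero S) (hE : DensityZero E) (D : ℕ) (hD : 0 < D)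
    (hint : ∀ p, p.Prime → p ∉ E → IsIntegral ℤ ((D : K) * trace n (f p)))
    (C : ℝ) (hC : ∀ σ : K →+* ℂ, MeanSquare n f E σ C)
    (σ₀ : K →+* ℂ) (C₀ : ℝ) (hC₀ : C₀ < 2) (hσ₀ : MeanSquare n f E σ₀ C₀)
    (L : Set ℕ) (hL : L.Nonempty) (hV : ∀ ℓ ∈ L, HasVirtual n f S ℓ) :
    (∀ e : K →+* QBar, ∃ R : GalQ →* GL (Fin n) QBar, IsOpen (R.ker : Set GalQ) ∧
      IsIrreducible R ∧
      ∀ p, p.Prime → p ∉ S → (∃ ℓ ∈ L, ℓ ≠ p) → CorrespondsAt R p ((f p).map e)) ∧
    (∀ (ℓ' : ℕ) [Fact ℓ'.Prime] (j : K →+* PadicAlgCl ℓ'),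
      ∃ ρ : GalQ →* GL (Fin n) (PadicAlgCl ℓ'), Continuous ρ ∧ IsIrreducible ρ ∧
      ∀ p, p.Prime → p ∉ S → (∃ ℓ ∈ L, ℓ ≠ p) → CorrespondsAt ρ p ((f p).map j)) ∧
    ∃ m : ℕ, 0 < m ∧ ∀ p, p.Prime → p ∉ S → (∃ ℓ ∈ L, ℓ ≠ p) →
      ∀ (σ : K →+* ℂ) (z : ℂ), ((f p).map σ).IsRoot z → z ^ m = 1 := by
  classical
  set P : Set ℕ := (S ∪ E)ᶜ with hPdef
  have hPS : P ⊆ Sᶜ := fun p hp hpS => hp (Or.inl hpS)
  have hP : ∀ δ : ℝ, 0 < δ → ∀ᶠ N : ℕ in atTop, (cnt Pᶜ N : ℝ) ≤ δ * Nat.primeCounting N := by
    intro δ hδ
    filter_upwards [hS (δ / 2) (by positivity), hE (δ / 2) (by positivity)] with N h1 h2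
    rw [ncard_eq] at h1 h2
    have h3 : cnt Pᶜ N ≤ cnt S N + cnt E N := by
      rw [hPdef, compl_compl]
      exact cnt_union_le S E N
    have h4 : (cnt Pᶜ N : ℝ) ≤ cnt S N + cnt E N := by exact_mod_cast h3
    linarith
  have hmean : ∀ (σ : K →+* ℂ) (B : ℝ), MeanSquare n f E σ B → ∀ᶠ N : ℕ in atTop,
      ∑ p ∈ (primesTo N).filter (· ∈ P), ‖σ (-(f p).coeff (n - 1))‖ ^ 2 ≤
        B * Nat.primeCounting N := by
    intro σ B hB
    filter_upwards [hB] with N hN
    refine le_trans ?_ hN
    refine Finset.sum_le_sum_of_subset_of_nonneg ?_ fun p _ _ => sq_nonneg _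
    intro p hp
    rw [Finset.mem_filter, mem_primesTo] at hp
    unfold primesOutside
    rw [Finset.mem_filter, Finset.mem_range]
    exact ⟨by omega, hp.1.2, fun h => hp.2 (Or.inr h)⟩
  have hmain : ∀ e : K →+* QBar, ∃ R : GalQ →* GL (Fin n) QBar, IsOpen (R.ker : Set GalQ) ∧
      (∀ M : Matrix (Fin n) (Fin n) QBar, M ∈ Submodule.span QBar (Set.range fun g => mt R g)) ∧
      ∀ p, p.Prime → p ∉ S → (∃ ℓ ∈ L, ℓ ≠ p) → Att R p ((f p).map e) := by
    intro e
    exact main hn f Sᶜ P hPS hP hD (fun p hp hpP => hint p hp fun h => hpP (Or.inr h)) C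
      (fun σ => hmean σ C (hC σ)) σ₀ C₀ hC₀ (hmean σ₀ C₀ hσ₀) L hL (by
        intro ℓ hℓ
        obtain ⟨h1, F, h2, h3, j, b, V, W, hV, hW, hVW⟩ := hV ℓ hℓ
        exact ⟨h1, F, h2, h3, j, b, V, W, hV, hW, fun p hp hpS hpℓ =>
          ⟨(hVW p hp hpS hpℓ).unramified, (hVW p hp hpS hpℓ).frobenius⟩⟩) e
  obtain ⟨e₀⟩ : Nonempty (K →+* QBar) := by
    have h0 : Algebra.IsAlgebraic ℚ QBar := AlgebraicClosure.isAlgebraic ℚ
    exact ⟨((IsAlgClosed.lift : K →ₐ[ℚ] QBar) : K →+* QBar)⟩
  refine ⟨?_, ?_, ?_⟩
  · intro e
    obtain ⟨R, hRo, hRs, hRc⟩ := hmain e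
    exact ⟨R, hRo, stable_irr (irreducible_of_span hn R hRs (RingHom.id QBar)),
      fun p hp hpS hpL => of_att (hRc p hp hpS hpL)⟩
  · intro ℓ' _ j
    obtain ⟨R, hRo, hRs, hRc⟩ := hmain e₀
    obtain ⟨ψ, hψ⟩ := exists_extend e₀ j
    have hker : R.ker ≤ ((Matrix.GeneralLinearGroup.map ψ).comp R).ker := by
      intro x hx
      rw [MonoidHom.mem_ker] at hx ⊢
      rw [MonoidHom.comp_apply, hx, map_one]
    have hopen : IsOpen (((Matrix.GeneralLinearGroup.map ψ).comp R).ker : Set GalQ) :=
      Subgroup.isOpen_mono hker hRo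
    refine ⟨(Matrix.GeneralLinearGroup.map ψ).comp R,
      Pool.Agent.R401.Img.continuous_of_open _ hopen, irreducible_of_span hn R hRs ψ,
      fun p hp hpS hpL => ?_⟩
    have h1 := hRc p hp hpS hpL
    constructor
    · intro I hI hpI g hg
      rw [MonoidHom.comp_apply, h1.unr I hI hpI g hg, map_one]
    · intro I hI hpI g hg
      have h2 : mat ((Matrix.GeneralLinearGroup.map ψ).comp R) g⁻¹ = (mt R g⁻¹).map ψ := rfl
      rw [h2, Matrix.charpoly_map, h1.frob I hI hpI g hg, Polynomial.map_map, hψ]
  · obtain ⟨R, hRo, hRs, hRc⟩ := hmain e₀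
    refine ⟨Nat.card (GalQ ⧸ R.ker), (mt_pow_card hRo 1).1, ?_⟩
    intro p hp hpS hpL σ z hz
    obtain ⟨I, g, hI, hIp, hg⟩ := Pool.Agent.W571.FM.frob_cm
      (⟨Pool.Agent.W571.FM.pl p, Pool.Agent.W571.FM.pl_prime hp, Pool.Agent.W571.FM.pl_ne hp⟩ :
        IsDedekindDomain.HeightOneSpectrum (𝓞 ℚ))
    have hpI : (p : ZBar) ∈ I := by
      refine Pool.Agent.W571.FM.natCast_mem_cm.1 ?_
      rw [hIp]
      exact Ideal.mem_span_singleton_self _
    have hg' : IsFrobenius p I g := by
      intro x
      have h1 := hg x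
      change g • x - x ^ Ideal.absNorm (Pool.Agent.W571.FM.pl p) ∈ I at h1
      rw [Pool.Agent.W571.FM.absNorm_pl] at h1
      exact h1
    obtain ⟨τ, hτ⟩ := exists_extend e₀ σ
    have h1 : ((mt R g⁻¹).map τ).charpoly = (f p).map σ := by
      rw [Matrix.charpoly_map, (hRc p hp hpS hpL).frob I hI.isPrime hpI g hg', Polynomial.map_map,
        hτ]
    have h2 : (mt R g⁻¹).map τ ^ Nat.card (GalQ ⧸ R.ker) = 1 := by
      have h3 : (mt R g⁻¹).map τ ^ Nat.card (GalQ ⧸ R.ker) =
          ((mt R g⁻¹) ^ Nat.card (GalQ ⧸ R.ker)).map τ :=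
        (map_pow (τ.mapMatrix (m := Fin n)) (mt R g⁻¹) _).symm
      rw [h3, (mt_pow_card hRo g⁻¹).2]
      exact map_one (τ.mapMatrix (m := Fin n))
    refine root_pow h2 ?_
    rw [mem_roots (Matrix.charpoly_monic _).ne_zero, h1]
    exact hz

end Pool.Agent.Results.MP_ef641d_nt.VirtualRepresentation
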